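import Pool.Agent.H78.ZC.Wn

/-!
The `ℓ`-primary part of the Tate-Shafarevich group and the order of the `ℓ`-Selmer group in the
towers of all cyclotomic fields with conductor supported in a finite set of primes, over totally real
fields, for every odd prime `ℓ` and all elliptic curves with a suitable rational subgroup of order
`ℓ`.
-/

set_option autoImplicit false
open scoped Classical

namespace H78Z.ParkC

open NumberField IsDedekindDomain WeierstrassCurve Pool.Agent.H10 Pool.Agent.H11

/-- `N` is contained in a Galois extension `F` of the rationals whose degree over an abelian field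
`F₀` is a power of `ℓ`. -/
def EllType (ℓ : ℕ) (N : Type) [Field N] [NumberField N] : Prop :=
  ∃ (F : Type) (_ : Field F) (_ : NumberField F) (F₀ : IntermediateField ℚ F),
    IsGalois ℚ F ∧ (∃ m : ℕ, m ≠ 0 ∧ Nonempty (F₀ →+* CyclotomicField m ℚ)) ∧
    (∃ r : ℕ, Module.finrank F₀ F = ℓ ^ r) ∧ Nonempty (N →+* F)

/-- `k` is unramified above `ℓ`. -/
def UnramifiedAt (ℓ : ℕ) (k : Type) [Field k] [NumberField k] : Prop :=
  ∀ v : HeightOneSpectrum (𝓞 k), (ℓ : 𝓞 k) ∈ v.asIdeal → (ℓ : 𝓞 k) ∉ v.asIdeal ^ 2

/-- `L` is a totally real field between `k` and `k(ζ_n)` for some `n` whose prime factors are all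
in `S`. -/
def Layer (S : Finset ℕ) (k L : Type) [Field k] [NumberField k] [Field L] [NumberField L]
    [Algebra k L] : Prop :=
  IsTotallyReal L ∧ ∃ n : ℕ, (n ≠ 0 ∧ ∀ q : ℕ, q.Prime → q ∣ n → q ∈ S) ∧
    Nonempty (L →ₐ[k] CyclotomicField n k)

/-- `K` contains all elements of `L` whose conjugates lie in the field of the `m`-th roots of
unity. -/
def Deep (m : ℕ) (K L : Type) [Field K] [Field L] [NumberField L] [Algebra K L] : Prop :=
  ∀ x : L, (∃ y : CyclotomicField m ℚ, minpoly ℚ y = minpoly ℚ x) → ∃ z : K, algebraMap K L z = x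

/-- `J` is the complex conjugation of `N` for all embeddings. -/
def IsConjugation {k N : Type} [Field k] [NumberField k] [Field N] [NumberField N] [Algebra k N]
    (J : N ≃ₐ[k] N) : Prop :=
  ∀ (φ : N →+* ℂ) (x : N), φ (J x) = starRingEnd ℂ (φ x)

/-- The Galois conjugate of a point. -/
noncomputable abbrev conj {k N : Type} [Field k] [NumberField k] [Field N] [NumberField N]
    [Algebra k N] (E : WeierstrassCurve k) (g : N ≃ₐ[k] N) :
    (E.baseChange N).toAffine.Point →+ (E.baseChange N).toAffine.Point :=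
  WeierstrassCurve.Affine.Point.map (g : N →ₐ[k] N)

/-- The equation has integral coefficients at `w` and its discriminant is a unit. -/
def GoodEq {N : Type} [Field N] [NumberField N] (w : HeightOneSpectrum (𝓞 N))
    (W : WeierstrassCurve N) : Prop :=
  w.valuation N W.a₁ ≤ 1 ∧ w.valuation N W.a₂ ≤ 1 ∧ w.valuation N W.a₃ ≤ 1 ∧
    w.valuation N W.a₄ ≤ 1 ∧ w.valuation N W.a₆ ≤ 1 ∧ w.valuation N W.Δ = 1

/-- The equation is `y² = x³ + a x² + b x + c` with `a` a unit at `w` and `b`, `c` in `w`; the
reduction is multiplicative with the node `(0, 0)`. -/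
def NodeEq {N : Type} [Field N] [NumberField N] (w : HeightOneSpectrum (𝓞 N))
    (W : WeierstrassCurve N) : Prop :=
  W.a₁ = 0 ∧ W.a₃ = 0 ∧ w.valuation N W.a₂ = 1 ∧ w.valuation N W.a₄ < 1 ∧ w.valuation N W.a₆ < 1

/-- The `x`-coordinate after the change of variables `C`. -/
def newX {N : Type} [Field N] (C : VariableChange N) (x : N) : N := (C.u⁻¹ : Nˣ) ^ 2 * (x - C.r)

/-- The prime `w` of `N` is above the prime `v` of `k`. -/
def Above {k N : Type} [Field k] [NumberField k] [Field N] [NumberField N] [Algebra k N]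
    (v : HeightOneSpectrum (𝓞 k)) (w : HeightOneSpectrum (𝓞 N)) : Prop :=
  ∀ x : 𝓞 k, algebraMap (𝓞 k) (𝓞 N) x ∈ w.asIdeal ↔ x ∈ v.asIdeal

/-- At all primes of `N` above `ℓ` which are not above a prime in `V` the curve is semistable over
`N`, and `T` does not reduce to the origin (good reduction), respectively reduces to the node
(multiplicative reduction). -/
def EtaleAbove (ℓ : ℕ) {k N : Type} [Field k] [NumberField k] [Field N] [NumberField N]
    [Algebra k N] (V : Finset (HeightOneSpectrum (𝓞 k))) (E : WeierstrassCurve k)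
    (T : (E.baseChange N).toAffine.Point) : Prop :=
  ∃ x y h, T = Affine.Point.some x y h ∧ ∀ w : HeightOneSpectrum (𝓞 N), (ℓ : 𝓞 N) ∈ w.asIdeal →
    (∀ v ∈ V, ¬ Above v w) →
    ∃ C : VariableChange N, (GoodEq w (C • E.baseChange N) ∧ w.valuation N (newX C x) ≤ 1) ∨
      (NodeEq w (C • E.baseChange N) ∧ w.valuation N (newX C x) < 1)

/-- Above `ℓ` the curve is semistable over `N`, and over all number fields containing `N` the points
killed by `ℓ` which reduce to the origin (good reduction), respectively do not reduce to the node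
(multiplicative reduction), are multiples of `T`. -/
def ConnectedAbove (ℓ : ℕ) {k N : Type} [Field k] [NumberField k] [Field N] [NumberField N]
    [Algebra k N] (E : WeierstrassCurve k) (T : (E.baseChange N).toAffine.Point) : Prop :=
  ∀ w : HeightOneSpectrum (𝓞 N), (ℓ : 𝓞 N) ∈ w.asIdeal →
    ∃ C : VariableChange N, (GoodEq w (C • E.baseChange N) ∨ NodeEq w (C • E.baseChange N)) ∧
      ∀ (M : Type) [Field M] [NumberField M] [Algebra k M] [Algebra N M] [IsScalarTower k N M]
        (q : HeightOneSpectrum (𝓞 M)),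
        (∀ x : 𝓞 N, algebraMap (𝓞 N) (𝓞 M) x ∈ q.asIdeal ↔ x ∈ w.asIdeal) →
        ∀ (x y : M) (h : (E.baseChange M).toAffine.Nonsingular x y),
          ℓ • Affine.Point.some x y h = 0 →
          (GoodEq w (C • E.baseChange N) ∧
              1 < q.valuation M (newX (C.map (algebraMap N M)) x) ∨
            NodeEq w (C • E.baseChange N) ∧
              1 ≤ q.valuation M (newX (C.map (algebraMap N M)) x)) →
          ∃ j : ℕ, Affine.Point.some x y h =
            j • WeierstrassCurve.Affine.Point.map (IsScalarTower.toAlgHom k N M) T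

/-- Restriction is a bijection from the `ℓ`-primary part of the Tate-Shafarevich group of `E` over
`K` to the one over `L`, and the group of the points over `K` has an exponent prime to `ℓ` in the
group of the points over `L`. -/
def Stable (ℓ : ℕ) (K L : Type) [Field K] [NumberField K] [Field L] [NumberField L] [Algebra K L]
    (E : WeierstrassCurve K) : Prop :=
  H78D.ShaPBijective ℓ K E L ∧
    ∃ m : ℕ, ¬ ℓ ∣ m ∧ ∀ P : (E.baseChange L).toAffine.Point,
      ∃ Q : (E.baseChange K).toAffine.Point,
        m • P = WeierstrassCurve.Affine.Point.map (Algebra.ofId K L) Q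

/-- `E` is stable in the tower of `S` over `k`: from some depth on nothing changes. -/
def StableTower (ℓ : ℕ) (S : Finset ℕ) (k : Type) [Field k] [NumberField k]
    (E : WeierstrassCurve k) : Prop :=
  ∃ n : ℕ, ∀ (K L : Type) [Field K] [NumberField K] [Field L] [NumberField L]
    [Algebra k K] [Algebra k L] [Algebra K L] [IsScalarTower k K L], Layer S k L →
    Deep ((∏ q ∈ S, q) ^ n) K L → Stable ℓ K L (E.baseChange K)

/-- The order of the `ℓ`-Selmer group of `W` over `L`: the number of the classes of the points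
modulo `ℓ` times the number of the elements of the Tate-Shafarevich group killed by `ℓ`. -/
noncomputable def selmerOrder (ℓ : ℕ) (L : Type) [Field L] [NumberField L]
    (W : WeierstrassCurve L) : ℕ :=
  Nat.card (W.toAffine.Point ⧸ (nsmulAddMonoidHom (α := W.toAffine.Point) ℓ).range) *
    Nat.card {x : Sha L W // ℓ • x = 0}

/-- In the tower the order of the `ℓ`-Selmer group is at least a constant times `q ^ [L : k]`. -/
def Grows (ℓ : ℕ) (S : Finset ℕ) (k : Type) [Field k] [NumberField k] (E : WeierstrassCurve k)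
    (q : ℕ) : Prop :=
  ∃ C : ℕ, ∀ (L : Type) [Field L] [NumberField L] [Algebra k L], Layer S k L →
    q ^ Module.finrank k L ≤ C * selmerOrder ℓ L (E.baseChange L)

/-- In the tower from some depth on the order of the `ℓ`-Selmer group is exactly multiplied by
`q ^ ([L : k] - [K : k])` when one goes from `K` to `L`. -/
def GrowsExactly (ℓ : ℕ) (S : Finset ℕ) (k : Type) [Field k] [NumberField k]
    (E : WeierstrassCurve k) (q : ℕ) : Prop :=
  ∃ n : ℕ, ∀ (K L : Type) [Field K] [NumberField K] [Field L] [NumberField L]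
    [Algebra k K] [Algebra k L] [Algebra K L] [IsScalarTower k K L], Layer S k L →
    Deep ((∏ q ∈ S, q) ^ n) K L →
    selmerOrder ℓ L (E.baseChange L) =
      q ^ (Module.finrank k L - Module.finrank k K) * selmerOrder ℓ K (E.baseChange K)

/-- At all primes `w` of `N` above `v`, after a change of variables over the subfield of `N`
generated over `k` by the `ℓ`-th roots of unity, the equation of `E` is integral at `w` and `T`
reduces to the origin. -/
def InKernelAbove (ℓ : ℕ) {k N : Type} [Field k] [NumberField k] [Field N] [NumberField N]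
    [Algebra k N] (v : HeightOneSpectrum (𝓞 k)) (E : WeierstrassCurve k)
    (T : (E.baseChange N).toAffine.Point) : Prop :=
  ∀ w : HeightOneSpectrum (𝓞 N), Above v w →
    ∃ (x y : N) (h : (E.baseChange N).toAffine.Nonsingular x y)
      (C : VariableChange (IntermediateField.adjoin k {z : N | z ^ ℓ = 1})) (W : WeierstrassCurve N),
      T = Affine.Point.some x y h ∧
      W = C.map (algebraMap (IntermediateField.adjoin k {z : N | z ^ ℓ = 1}) N) •
        E.baseChange N ∧
      (w.valuation N W.a₁ ≤ 1 ∧ w.valuation N W.a₂ ≤ 1 ∧ w.valuation N W.a₃ ≤ 1 ∧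
        w.valuation N W.a₄ ≤ 1 ∧ w.valuation N W.a₆ ≤ 1) ∧
      1 < w.valuation N
        (newX (C.map (algebraMap (IntermediateField.adjoin k {z : N | z ^ ℓ = 1}) N)) x)

theorem result (ℓ : ℕ) [Fact ℓ.Prime] (hℓ : ℓ ≠ 2) (S : Finset ℕ)
    (hS : ∀ p ∈ S, p.Prime ∧ p ≠ 2 ∧ p ≠ ℓ) (k N : Type) [Field k] [NumberField k] [Field N]
    [NumberField N] [Algebra k N] [IsGalois k N] (J : N ≃ₐ[k] N) (hJ : IsConjugation J)
    (E : WeierstrassCurve k) (hΔ : E.Δ ≠ 0) (T : (E.baseChange N).toAffine.Point) (hT0 : T ≠ 0)
    (hT : ℓ • T = 0) (hst : ∀ g : N ≃ₐ[k] N, ∃ c : ℕ, conj E g T = c • T) :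
    (EllType ℓ N →
      (conj E J T = -T ∧ EtaleAbove ℓ ∅ E T) ∨ (conj E J T = T ∧ ConnectedAbove ℓ E T) →
      StableTower ℓ S k E) ∧
    (UnramifiedAt ℓ k → conj E J T = -T →
      ∀ V : Finset (HeightOneSpectrum (𝓞 k)),
        (∀ v ∈ V, (ℓ : 𝓞 k) ∈ v.asIdeal ∧ InKernelAbove ℓ v E T) →
        Grows ℓ S k E (∏ v ∈ V, Ideal.absNorm v.asIdeal) ∧
        (EllType ℓ N → EtaleAbove ℓ V E T →
          GrowsExactly ℓ S k E (∏ v ∈ V, Ideal.absNorm v.asIdeal))) := by
  have hl : ℓ.Prime := Fact.out
  have hOP : H78Z.OP S := fun p hp => ⟨(hS p hp).1, (hS p hp).2.1⟩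
  have hlS : ℓ ∉ S := fun h => (hS ℓ h).2.2 rfl
  have hpm : ∀ (g : N ≃ₐ[k] N) (h : (E.map (algebraMap k N)).map (g : N →+* N) =
      E.map (algebraMap k N)) (X : (E.baseChange N).toAffine.Point), pm (g : N →+* N) h X =
        conj E g X := by
    intro g h X
    rcases X with _ | ⟨x, y, hxy⟩ <;> rfl
  have hhg : ∀ g : N ≃ₐ[k] N, (E.map (algebraMap k N)).map (g : N →+* N) =
      E.map (algebraMap k N) := H86G.map_gal rfl
  have hk : IsTotallyReal k := H2ZS.real_of_cc (J := J) hJ
  refine ⟨?_, ?_⟩
  · intro hE hc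
    obtain ⟨n, hn⟩ := H2ZS.stable_tower_SN hOP hℓ hlS hE (J1 := J) hJ hΔ (T1 := T) hT0 hT (hhg J)
      (by
        rcases hc with ⟨h1, x, y, h, h2, h3⟩ | ⟨h1, h2⟩
        · left
          exact ⟨(hpm J _ T).trans h1, x, y, h, h2, fun w hw =>
            h3 w hw fun v hv => absurd hv (Finset.notMem_empty v)⟩
        · right
          refine ⟨(hpm J _ T).trans h1, ?_⟩
          intro w hw
          obtain ⟨C, hC, h3⟩ := h2 w hw
          refine ⟨C, hC, ?_⟩
          intro M _ _ _ q hq x y h hxy hx
          let _ : Algebra k M := ((algebraMap N M).comp (algebraMap k N)).toAlgebra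
          have : IsScalarTower k N M := IsScalarTower.of_algebraMap_eq fun _ => rfl
          have e0 : (E.map (algebraMap k N)).map (algebraMap N M) = E.baseChange M := by
            rw [WeierstrassCurve.map_map]
            rfl
          have e1 : ((E.map (algebraMap k N)).map (algebraMap N M)).map (RingHom.id M) =
              E.baseChange M := by rw [e0]; rfl
          have h' : (E.baseChange M).toAffine.Nonsingular x y := by
            rw [← e0]
            exact h
          have e2 : pm (RingHom.id M) e1 (Affine.Point.some x y h) = Affine.Point.some x y h' := rfl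
          obtain ⟨j, hj⟩ := h3 M q hq x y h' (by
            rw [← e2, ← map_nsmul, hxy, map_zero]) hx
          refine ⟨j, pm_injective (RingHom.id M) e1 (e2.trans (hj.trans ?_))⟩
          rw [map_nsmul]
          congr 1
          rcases T with _ | ⟨x, y, h⟩ <;> rfl)
    exact ⟨n, fun K L _ _ _ _ _ _ _ _ hL hD => hn K L hL.1 hL.2 hD⟩
  · intro hU hodd V hV
    have hab : ∀ w : HeightOneSpectrum (𝓞 N), Above (H73IS.below k w) w :=
      fun w x => (H73IS.mem_below w x).symm
    have hVl : ∀ v ∈ V, (ℓ : 𝓞 k) ∈ v.asIdeal := fun v hv => (hV v hv).1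
    have hgp : ∀ (g : N ≃ₐ[k] N) (X : (E.map (algebraMap k N)).toAffine.Point),
        H86G.gp (V := E) rfl g X = conj E g X := fun g X => hpm g _ X
    rcases T with _ | ⟨x, y, hxy⟩
    · exact absurd rfl hT0
    have hmu : ∀ w : HeightOneSpectrum (𝓞 N), H73IS.below k w ∈ V → H86G.MuAt ℓ E x w := by
      intro w hw
      obtain ⟨x', y', h', C, W, h1, h2, h3, h4⟩ := (hV _ hw).2 w (hab w)
      have h5 : x = x' := (Affine.Point.some.inj h1).1
      subst h5
      subst h2
      exact ⟨C, h3, h4⟩
    have hst' : ∀ g : N ≃ₐ[k] N, ∃ c : ℕ,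
        H86G.gp (V := E) rfl g (Affine.Point.some x y hxy) = c • Affine.Point.some x y hxy := by
      intro g
      obtain ⟨c, hc⟩ := hst g
      exact ⟨c, (hgp g _).trans hc⟩
    have hJT : H86G.gp (V := E) rfl J (Affine.Point.some x y hxy) =
        -Affine.Point.some x y hxy := (hgp J _).trans hodd
    refine ⟨?_, ?_⟩
    · obtain ⟨C, hC⟩ := H78Z.lowN hOP hl hℓ hlS hU hk hΔ (N := N)
        (T₀ := Affine.Point.some x y hxy) hT0 hT hst'
        (fun φ g hg => by
          have : g = J := by
            ext x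
            apply φ.injective
            rw [hg x]
            exact (hJ φ x).symm
          rw [this]
          exact hJT) V hVl (fun w hw => ⟨x, y, hxy, rfl, hmu w hw⟩)
      refine ⟨C, fun L _ _ _ hL => ?_⟩
      obtain ⟨hreal, n, hn, hφ⟩ := hL
      exact hC L ⟨hreal, n, hn, hφ⟩
    · intro hE hEt
      obtain ⟨n, hn⟩ := H78Z.iwasawa_S (S₀ := S) hOP hℓ hlS hE (J1 := J) hJ hU hΔ (x1 := x)
        (y1 := y) (hxy1 := hxy) hT hJT hst' (S := V) hVl hmu
        (fun w hw => by
          by_cases h1 : H73IS.below k w ∈ V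
          · exact Or.inl h1
          · right
            obtain ⟨x', y', h', h2, h3⟩ := hEt
            have h5 : x = x' := (Affine.Point.some.inj h2).1
            subst h5
            refine h3 w hw ?_
            intro v hv h4
            apply h1
            have h6 : H73IS.below k w = v := by
              apply HeightOneSpectrum.ext
              ext a
              rw [H73IS.mem_below]
              exact h4 a
            rw [h6]
            exact hv)
      refine ⟨n, fun K L _ _ _ _ _ _ _ _ hL hD => ?_⟩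
      exact hn K L hL.1 hL.2 hD

end H78Z.ParkC
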