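import Pool.Agent.H78.ZC.Wn

/-!
# MP_78d38b, the order of the `l`-Selmer group in terms of cocycles (helper78; no row)
-/

set_option autoImplicit false
open scoped Classical

open WeierstrassCurve IsDedekindDomain NumberField Pool.Agent.H10 Pool.Agent.H11 H68IW

namespace H78Z

/-- The number of elements killed by `l` of the Tate-Shafarevich group, in terms of cocycles. -/
theorem card_tl {l : ℕ} {L : Type} [Field L] [NumberField L] (V : WeierstrassCurve L) :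
    Nat.card (Tl l (Sha L V)) =
      Nat.card (Quot fun f g : {f : Coch L V // IsCocycle L V f ∧ IsLocTriv L V f ∧
        IsCobound L V (fun σ => l • f σ)} => IsCobound L V (fun σ => f.1 σ - g.1 σ)) := by
  symm
  have key : ∀ f : {f : Coch L V // IsCocycle L V f ∧ IsLocTriv L V f ∧
      IsCobound L V (fun σ => l • f σ)},
      (Sha.mk ⟨f.1, f.2.1, f.2.2.1⟩ : Sha L V) ∈ Tl l (Sha L V) := by
    intro f
    change l • (Sha.mk ⟨f.1, f.2.1, f.2.2.1⟩ : Sha L V) = 0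
    rw [← Sha.mk_nsmul, Sha.mk_eq_zero]
    exact f.2.2.2
  have heq : ∀ f g : {f : Coch L V // IsCocycle L V f ∧ IsLocTriv L V f ∧
      IsCobound L V (fun σ => l • f σ)},
      (Sha.mk ⟨f.1, f.2.1, f.2.2.1⟩ : Sha L V) = Sha.mk ⟨g.1, g.2.1, g.2.2.1⟩ ↔
        IsCobound L V (fun σ => f.1 σ - g.1 σ) := by
    intro f g
    have h1 : Sha.mk (⟨f.1, f.2.1, f.2.2.1⟩ - ⟨g.1, g.2.1, g.2.2.1⟩ : ShaZ L V) =
        Sha.mk ⟨f.1, f.2.1, f.2.2.1⟩ - Sha.mk ⟨g.1, g.2.1, g.2.2.1⟩ := rfl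
    rw [← sub_eq_zero, ← h1, Sha.mk_eq_zero]
    rfl
  refine Nat.card_congr (Equiv.ofBijective
    (Quot.lift (fun f => (⟨_, key f⟩ : Tl l (Sha L V))) (fun f g h =>
      Subtype.ext ((heq f g).2 h))) ⟨?_, ?_⟩)
  · rintro ⟨f⟩ ⟨g⟩ h
    exact Quot.sound ((heq f g).1 (congrArg Subtype.val h))
  · rintro ⟨x, hx⟩
    obtain ⟨f, rfl⟩ := Sha.mk_surjective x
    have h1 : l • (Sha.mk f : Sha L V) = 0 := hx
    rw [← Sha.mk_nsmul, Sha.mk_eq_zero] at h1
    exact ⟨Quot.mk _ ⟨f.1, f.2.1, f.2.2, h1⟩, rfl⟩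

end H78Z
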